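import Pool.Agent.P8H15.EK.Stm

/-!
# Package COP of the project EK
-/

set_option autoImplicit false
set_option linter.all false

open NumberField IsDedekindDomain
open scoped Classical

namespace Pool.Agent.P8H94.EK

open Pool.Agent.P8H15.EK

/-- an ideal with even exponents is a square -/
theorem ideal_sq {R : Type} [CommRing R] [IsDedekindDomain R] (I : Ideal R) (hI : I ≠ 0)
    (h : ∀ w : HeightOneSpectrum R, Even ((Associates.mk w.asIdeal).count (Associates.mk I).factors)) :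
    ∃ J : Ideal R, I = J ^ 2 := by
  refine ⟨∏ᶠ v : HeightOneSpectrum R, v.asIdeal ^
    (((Associates.mk v.asIdeal).count (Associates.mk I).factors) / 2), ?_⟩
  have hfin : (Function.mulSupport fun v : HeightOneSpectrum R => v.asIdeal ^
      (((Associates.mk v.asIdeal).count (Associates.mk I).factors) / 2)).Finite := by
    refine (Ideal.finite_mulSupport hI).subset ?_
    intro v hv hv'
    apply hv
    have h1 : v.asIdeal ^ ((Associates.mk v.asIdeal).count (Associates.mk I).factors) = 1 := hv'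
    by_cases h0 : (Associates.mk v.asIdeal).count (Associates.mk I).factors = 0
    · show v.asIdeal ^ _ = 1
      rw [h0]
      simp
    · exfalso
      have h2 : v.asIdeal ^ ((Associates.mk v.asIdeal).count (Associates.mk I).factors) ≤
          v.asIdeal := Ideal.pow_le_self h0
      rw [h1, Ideal.one_eq_top, top_le_iff] at h2
      exact v.isPrime.ne_top h2
  rw [finprod_pow hfin]
  conv_lhs => rw [← Ideal.finprod_heightOneSpectrum_factorization hI]
  refine finprod_congr fun v => ?_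
  rw [← pow_mul, Nat.div_mul_cancel (h v).two_dvd]
  rfl

theorem even_count {L : Type} [Field L] [NumberField L] (x : 𝓞 L) (hx : x ≠ 0)
    (w : HeightOneSpectrum (𝓞 L)) (h : IsSquare (w.valuation L (x : L))) :
    Even ((Associates.mk w.asIdeal).count (Associates.mk (Ideal.span {x})).factors) := by
  obtain ⟨r, hr⟩ := h
  have h1 : w.valuation L (x : L) = w.intValuation x := w.valuation_of_algebraMap x
  rw [h1, w.intValuation_if_neg hx] at hr
  have hr0 : r ≠ 0 := by
    rintro rfl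
    rw [mul_zero] at hr
    exact (WithZero.exp_ne_zero) hr
  obtain ⟨n, hn⟩ : ∃ n : ℤ, r = WithZero.exp n := ⟨WithZero.log r, (WithZero.exp_log hr0).symm⟩
  rw [hn, ← WithZero.exp_add] at hr
  have h2 := WithZero.exp_injective hr
  have h3 : ((Associates.mk w.asIdeal).count (Associates.mk (Ideal.span {x})).factors : ℤ) =
      (-n) + (-n) := by linarith
  have h4 : Even (((Associates.mk w.asIdeal).count (Associates.mk (Ideal.span {x})).factors : ℕ) : ℤ) :=
    ⟨-n, h3⟩
  exact_mod_cast h4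

theorem cop : S_COP := by
  intro L _ _ α 𝔫 hα hn hsq
  obtain ⟨x, y, hy, hxy⟩ := IsFractionRing.div_surjective (A := 𝓞 L) α
  have hy0 : y ≠ 0 := nonZeroDivisors.ne_zero hy
  have hyL : ((y : 𝓞 L) : L) ≠ 0 := by
    simpa using hy0
  have hx0 : x ≠ 0 := by
    rintro rfl
    rw [map_zero, zero_div] at hxy
    exact hα hxy.symm
  set a₀ : 𝓞 L := x * y with ha₀
  have ha0 : a₀ ≠ 0 := mul_ne_zero hx0 hy0
  have ha : ((a₀ : 𝓞 L) : L) = α * (y : L) ^ 2 := by
    rw [← hxy, ha₀]
    push_cast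
    field_simp
  obtain ⟨J, hJ⟩ := ideal_sq (Ideal.span {a₀}) (by simpa using ha0) (fun w => by
    apply even_count a₀ ha0 w
    rw [ha, map_mul, map_pow]
    obtain ⟨r, hr⟩ := hsq w
    exact ⟨r * w.valuation L (y : L), by rw [hr, pow_two]; exact mul_mul_mul_comm _ _ _ _⟩)
  have hJ0 : J ≠ ⊥ := by
    rintro rfl
    have h1 : (⊥ : Ideal (𝓞 L)) ^ 2 = ⊥ := by
      rw [← Ideal.zero_eq_bot]
      simp
    rw [h1] at hJ
    exact ha0 (by simpa using hJ)
  by_cases htop : 𝔫 = ⊤
  · refine ⟨y, a₀, J, hyL, ha, hJ, ?_⟩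
    rw [htop]
    simp
  obtain ⟨g, hgJ, hg0⟩ := Submodule.exists_mem_ne_zero_of_ne_bot hJ0
  obtain ⟨J', hJ'⟩ := Ideal.dvd_span_singleton.mpr hgJ
  have hgs : Ideal.span {g} ≠ 0 := by simpa using hg0
  have hJ'0 : J' ≠ 0 := by
    rintro rfl
    rw [mul_zero] at hJ'
    exact hgs hJ'
  obtain ⟨h, hh⟩ := IsDedekindDomain.exists_sup_span_eq (I := J' * 𝔫) (J := J') Ideal.mul_le_left
    (mul_ne_zero hJ'0 hn)
  have hhJ' : h ∈ J' := by
    rw [← hh]
    exact Ideal.mem_sup_right (Ideal.mem_span_singleton_self h)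
  obtain ⟨I, hI⟩ := Ideal.dvd_span_singleton.mpr hhJ'
  have hcop : 𝔫 ⊔ I = ⊤ := by
    have h1 : J' * (𝔫 ⊔ I) = J' * ⊤ := by
      rw [Ideal.mul_sup, ← hI, Ideal.mul_top]
      exact hh
    exact mul_left_cancel₀ hJ'0 h1
  have hh0 : h ≠ 0 := by
    rintro rfl
    apply htop
    have h1 : J' * 𝔫 = J' * ⊤ := by
      rw [Ideal.mul_top]
      conv_rhs => rw [← hh]
      simp
    exact mul_left_cancel₀ hJ'0 h1
  -- the element
  have h1 : Ideal.span {a₀ * h ^ 2} = Ideal.span {g ^ 2} * I ^ 2 := by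
    rw [← Ideal.span_singleton_mul_span_singleton, ← Ideal.span_singleton_pow,
      ← Ideal.span_singleton_pow, hJ, hI, hJ']
    ring
  have h2 : g ^ 2 ∣ a₀ * h ^ 2 := by
    rw [← Ideal.span_singleton_le_span_singleton, h1]
    exact Ideal.mul_le_left
  obtain ⟨β, hβ⟩ := h2
  have hgL : ((g : 𝓞 L) : L) ≠ 0 := by simpa using hg0
  have hhL : ((h : 𝓞 L) : L) ≠ 0 := by simpa using hh0
  refine ⟨y * h / g, β, I, ?_, ?_, ?_, ?_⟩
  · exact div_ne_zero (mul_ne_zero hyL hhL) hgL
  · have h3 : ((a₀ * h ^ 2 : 𝓞 L) : L) = ((g ^ 2 * β : 𝓞 L) : L) := by rw [hβ]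
    have h4 : ((a₀ : 𝓞 L) : L) * (h : L) ^ 2 = (g : L) ^ 2 * (β : L) := by
      have e1 : ((a₀ * h ^ 2 : 𝓞 L) : L) = ((a₀ : 𝓞 L) : L) * (h : L) ^ 2 := by
        push_cast
        rfl
      have e2 : ((g ^ 2 * β : 𝓞 L) : L) = (g : L) ^ 2 * (β : L) := by
        push_cast
        rfl
      rw [← e1, ← e2, h3]
    rw [ha] at h4
    field_simp
    linear_combination -h4
  · rw [hβ, ← Ideal.span_singleton_mul_span_singleton] at h1
    have h5 : Ideal.span {g ^ 2} ≠ (0 : Ideal (𝓞 L)) := by simpa using hg0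
    exact mul_left_cancel₀ h5 h1
  · rw [hβ, ← Ideal.span_singleton_mul_span_singleton] at h1
    have h5 : Ideal.span {g ^ 2} ≠ (0 : Ideal (𝓞 L)) := by simpa using hg0
    rw [mul_left_cancel₀ h5 h1]
    have h6 : IsCoprime I 𝔫 := by
      rw [Ideal.isCoprime_iff_sup_eq, sup_comm]
      exact hcop
    have h7 := h6.pow_left (m := 2)
    rwa [Ideal.isCoprime_iff_sup_eq] at h7

end Pool.Agent.P8H94.EK
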