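import Pool.Agent.P8H94.EK.Sel1

/-!
# Package SEL of the project EK
-/

set_option autoImplicit false
set_option linter.all false

open Polynomial NumberField IsDedekindDomain
open scoped Classical

namespace Pool.Agent.P8H94.EK

open Pool.Agent.P8H15.EK (S_PGR S_SET S_DES S_VAL S_IDX S_SEL Ineq Over RamIn SqD Tow)
open Pool.Agent.N783.PF (IsGen Lat fF Bd)
open Pool.Agent.N61.PF (pol pol_natDegree pol_monic)
open Pool.Agent.P8H15.BR (el root3 al_ne el_inj exists_el)
open Pool.Agent.K4H55.BD (crv mw halve_sq equation_iff)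
open WeierstrassCurve

theorem exists_under {F L : Type} [Field F] [NumberField F] [Field L] [NumberField L] [Algebra F L]
    (w : HeightOneSpectrum (𝓞 L)) : ∃ v : HeightOneSpectrum (𝓞 F), Over v w := by
  refine ⟨⟨w.asIdeal.comap (algebraMap (𝓞 F) (𝓞 L)), inferInstance, ?_⟩, fun z hz => hz⟩
  exact Ideal.IsIntegral.comap_ne_bot (𝓞 F) w.ne_bot

theorem pol_map {F : Type} [Field F] [NumberField F] (a b : 𝓞 F) :
    fF (pol a b) = X ^ 3 + C (a : F) * X + C (b : F) := by
  simp [fF, pol]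

/-- the square property of the points -/
theorem del_sq {K M : Type} [Field K] [NumberField K] [Field M] [NumberField M] [Algebra K M]
    {f : (𝓞 K)[X]} {θ : M} (hG : IsGen 1 f θ) {A B : K} (hf : fF f = X ^ 3 + C A * X + C B)
    (P Q : (crv A B).toAffine.Point) (h : ∃ β : M, del θ P = β ^ 2 * del θ Q) :
    ∃ R : (crv A B).toAffine.Point, P + Q = R + R := by
  have hth := root3 hG hf
  have hne : ∀ x : K, algebraMap K M x - θ ≠ 0 := al_ne hG hf
  have hhalf : ∀ (x y : K) (h : (crv A B).toAffine.Nonsingular x y),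
      IsSquare (algebraMap K M x - θ) → ∃ R : (crv A B).toAffine.Point,
        R + R = Affine.Point.some x y h := fun x y h hs =>
    halve_sq (K := K) (L := M) two_ne_zero (a := A) (b := B) (θ := θ)
      (by linear_combination hth)
      (fun p q r h => el_inj hG hf (a := p) (b := q) (c := r) (a' := 0) (b' := 0) (c' := 0)
        (by
          have e0 : el θ (0 : K) 0 0 = 0 := by simp [el]
          rw [e0]
          exact h))
      (fun β => exists_el hG β) h hs
  obtain ⟨β, hβ⟩ := h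
  rcases P with _ | ⟨x1, y1, h1⟩
  · rcases Q with _ | ⟨x2, y2, h2⟩
    · exact ⟨0, rfl⟩
    · have h3 : (1 : M) = β ^ 2 * (algebraMap K M x2 - θ) := hβ
      have hβ0 : β ≠ 0 := by
        rintro rfl
        rw [zero_pow two_ne_zero, zero_mul] at h3
        exact one_ne_zero h3
      obtain ⟨R, hR⟩ := hhalf x2 y2 h2 ⟨β⁻¹, by
        field_simp
        linear_combination -h3⟩
      refine ⟨R, ?_⟩
      rw [hR]
      exact zero_add _
  · rcases Q with _ | ⟨x2, y2, h2⟩
    · have h3 : algebraMap K M x1 - θ = β ^ 2 * 1 := hβ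
      obtain ⟨R, hR⟩ := hhalf x1 y1 h1 ⟨β, by rw [h3]; ring⟩
      refine ⟨R, ?_⟩
      rw [hR]
      exact add_zero _
    · exact Pool.Agent.P8H15.BR.add_sq hG hf h1 h2 ⟨β, hβ⟩

theorem sel : S_PGR → S_SET → S_DES → S_VAL → S_IDX → S_SEL := by
  intro hPGR hSET hDES hVAL hIDX F K _ _ _ _ _ _ n hn a b hirr T hT1 hT2
  obtain ⟨L, M, _, _, _, _, _, _, _, θ, τ, hGL, hGM, hτ⟩ := hSET F K n hn a b hirr
  haveI : FiniteDimensional F K := Module.Finite.of_restrictScalars_finite ℚ F K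
  set A : K := algebraMap F K a with hA
  set B : K := algebraMap F K b with hB
  set θ' : M := algebraMap L M θ with hθ'
  have hf : fF (pol (algebraMap (𝓞 F) (𝓞 K) a) (algebraMap (𝓞 F) (𝓞 K) b)) =
      X ^ 3 + C A * X + C B := pol_map _ _
  have hne : ∀ x : K, algebraMap K M x - θ' ≠ 0 := al_ne hGM hf
  have hth := root3 hGM hf
  have hab0 : 4 * (a : F) ^ 3 + 27 * (b : F) ^ 2 ≠ 0 := by
    apply Pool.Agent.N61.PF.disc_ne
    rw [← pol_map]
    exact hirr
  have hab : 4 * A ^ 3 + 27 * B ^ 2 ≠ 0 := by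
    have h1 : 4 * A ^ 3 + 27 * B ^ 2 = algebraMap F K (4 * (a : F) ^ 3 + 27 * (b : F) ^ 2) := by
      rw [map_add, map_mul, map_mul, map_pow, map_pow, map_ofNat, map_ofNat]
    rw [h1]
    exact (_root_.map_ne_zero _).mpr hab0
  have hW : (crv (a : F) (b : F)).baseChange K = crv A B := by
    apply WeierstrassCurve.ext
    · exact map_zero (algebraMap F K)
    · exact map_zero (algebraMap F K)
    · exact map_zero (algebraMap F K)
    · rfl
    · rfl
  obtain ⟨m, hm1, hm2, hm3⟩ := exists_act (a : F) (b : F) _ hW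
  have hcard : Nat.card Gal(K/F) = 2 ^ n := by
    rw [IsGalois.card_aut_eq_finrank, hn]
  obtain ⟨R, hR0, hR1, hR2, hR3⟩ := exists_reps hPGR (crv A B).toAffine.Point (mw K A B hab)
    Gal(K/F) n hcard m hm1 hm2
  -- every representative gives an element of L
  have hex : ∀ P : (crv A B).toAffine.Point, ∃ (α : L) (γ : M), P ∈ R → α ≠ 0 ∧ γ ≠ 0 ∧
      IsSquare (Algebra.norm F α) ∧ (∀ w : HeightOneSpectrum (𝓞 L), (∀ v ∈ T, ¬ Over v w) →
        IsSquare (w.valuation L α)) ∧ del θ' P = algebraMap L M α * γ ^ 2 := by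
    intro P
    by_cases hPR : P ∈ R
    · rcases P with _ | ⟨x, y, h⟩
      · refine ⟨1, 1, fun _ => ⟨one_ne_zero, one_ne_zero, ?_, ?_, ?_⟩⟩
        · rw [map_one]
          exact ⟨1, by ring⟩
        · intro w _
          rw [map_one]
          exact ⟨1, (mul_one _).symm⟩
        · show (1 : M) = algebraMap L M 1 * 1 ^ 2
          rw [map_one]
          ring
      · have hE := equation_iff.1 h.1
        have hσ : ∀ σ : Gal(K/F), ∃ β : M, algebraMap K M (σ x) - θ' =
            β ^ 2 * (algebraMap K M x - θ') := by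
          intro σ
          obtain ⟨Q, hQ⟩ := hR1 _ hPR σ
          obtain ⟨h', hh'⟩ := hm3 σ x y h
          rw [hh'] at hQ
          obtain ⟨β₁, hβ₁⟩ := del_add hne hth two_ne_zero (Affine.Point.some x y h) (Q + Q)
          obtain ⟨β₂, hβ₂⟩ := del_add hne hth two_ne_zero Q Q
          refine ⟨β₁ * β₂ * del θ' Q, ?_⟩
          have h1 : algebraMap K M (σ x) - θ' = del θ' (Affine.Point.some (σ x) (σ y) h') := rfl
          rw [h1, hQ, hβ₁, hβ₂, del_some]
          ring
        obtain ⟨α, γ, hα, hγ, heq, hnorm⟩ := hDES F K L M τ θ a b hGL hGM hτ x y hE hσ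
        refine ⟨α, γ, fun _ => ⟨hα, hγ, hnorm, fun w hw => ?_, heq⟩⟩
        obtain ⟨v, hv⟩ := exists_under (F := F) w
        exact hVAL F K L M τ θ a b hGL hGM hτ x y hE α γ hα hγ heq v w hv
          (fun hr => hw v (hT2 v hr) hv) (fun hs => hw v (hT1 v hs) hv)
    · exact ⟨1, 1, fun h => absurd h hPR⟩
  choose α γ hαγ using hex
  have hsq : ∀ P ∈ R, ∀ Q ∈ R, (∃ z : L, α P = z ^ 2 * α Q) → P = Q := by
    rintro P hP Q hQ ⟨z, hz⟩
    apply hR2 P hP Q hQ
    apply del_sq hGM hf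
    obtain ⟨-, -, -, -, h1⟩ := hαγ P hP
    obtain ⟨-, hγ, -, -, h2⟩ := hαγ Q hQ
    refine ⟨algebraMap L M z * γ P / γ Q, ?_⟩
    rw [h1, h2, hz, map_mul, map_pow]
    field_simp
  have hinj : Set.InjOn α R := by
    intro P hP Q hQ h
    exact hsq P hP Q hQ ⟨1, by rw [one_pow, one_mul]; exact h⟩
  obtain ⟨s, hs1, hs2, hs3⟩ := hIDX F L a b θ hGL T hT1 (R.image α) (by
    intro x hx y hy ⟨z, hz⟩
    obtain ⟨P, hP, rfl⟩ := Finset.mem_image.mp hx
    obtain ⟨Q, hQ, rfl⟩ := Finset.mem_image.mp hy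
    rw [hsq P hP Q hQ ⟨z, hz⟩]) (by
    intro x hx
    obtain ⟨P, hP, rfl⟩ := Finset.mem_image.mp hx
    obtain ⟨h1, -, h2, h3, -⟩ := hαγ P hP
    exact ⟨h1, h2, h3⟩)
  refine ⟨L, inferInstance, inferInstance, inferInstance, θ, hGL, s, hs1, hs2, ?_⟩
  rw [Finset.card_image_of_injOn hinj] at hs3
  have h4 : Nat.card Gal(K/F) = Module.finrank F K := IsGalois.card_aut_eq_finrank F K
  rw [h4] at hR3
  exact hR3.trans (Nat.pow_le_pow_left hs3 _)

end Pool.Agent.P8H94.EK
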