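import Pool.Agent.P8H15.EK.Stm

/-!
# Package SET of the project EK
-/

set_option autoImplicit false
set_option linter.all false

open Polynomial NumberField IsDedekindDomain
open scoped Classical

namespace Pool.Agent.P8H94.EK

open Pool.Agent.P8H15.EK
open Pool.Agent.N783.PF (IsGen Lat fF Bd)
open Pool.Agent.N61.PF (pol pol_natDegree pol_monic)

theorem nf_adjoin {F : Type} [Field F] [NumberField F] (p : F[X]) (hm : p.Monic)
    [Fact (Irreducible p)] : NumberField (AdjoinRoot p) := by
  haveI : FiniteDimensional F (AdjoinRoot p) := hm.finite_adjoinRoot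
  haveI : CharZero (AdjoinRoot p) :=
    charZero_of_injective_algebraMap (R := F) (algebraMap F _).injective
  haveI : FiniteDimensional ℚ (AdjoinRoot p) := FiniteDimensional.trans ℚ F _
  exact { }

theorem gen_adjoin {F : Type} [Field F] [NumberField F] (g : ℕ) (f : (𝓞 F)[X]) (hm : f.Monic)
    (hd : f.natDegree = 2 * g + 1) [Fact (Irreducible (fF f))] [NumberField (AdjoinRoot (fF f))] :
    IsGen g f (AdjoinRoot.root (fF f)) := by
  have hm' : (fF f).Monic := hm.map _
  have hd' : (fF f).natDegree = 2 * g + 1 := by rw [hm.natDegree_map, hd]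
  refine ⟨hm, hd, ?_, ?_, ?_⟩
  · rw [aeval_def]
    exact AdjoinRoot.eval₂_root (fF f)
  · have h1 := (AdjoinRoot.powerBasis hm'.ne_zero).finrank
    rw [AdjoinRoot.powerBasis_dim, hd'] at h1
    exact h1
  · intro x
    obtain ⟨p, rfl⟩ := AdjoinRoot.mk_surjective x
    have h1 : AdjoinRoot.mk (fF f) p = AdjoinRoot.mk (fF f) (p %ₘ fF f) := by
      rw [AdjoinRoot.mk_eq_mk, modByMonic_eq_sub_mul_div p (fF f)]
      rw [sub_sub_cancel]
      exact dvd_mul_right _ _
    have hlt : (p %ₘ fF f).natDegree < 2 * g + 1 := by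
      rw [← hd']
      exact natDegree_modByMonic_lt p hm' (by
        intro h
        rw [h] at hd'
        simp at hd')
    refine ⟨fun i => (p %ₘ fF f).coeff i, ?_⟩
    rw [h1]
    conv_lhs => rw [(p %ₘ fF f).as_sum_range_C_mul_X_pow' hlt]
    rw [map_sum, Finset.sum_range]
    refine Finset.sum_congr rfl fun i _ => ?_
    rw [map_mul, map_pow, AdjoinRoot.mk_X, AdjoinRoot.mk_C]
    rfl

section ext

variable {K M N : Type} [Field K] [NumberField K] [Field M] [NumberField M] [Algebra K M]
  [Field N] {g : ℕ} {f : (𝓞 K)[X]} {θ : M}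

theorem hom_ext (hG : IsGen g f θ) (φ ψ : M →+* N)
    (h1 : ∀ x : K, φ (algebraMap K M x) = ψ (algebraMap K M x)) (h2 : φ θ = ψ θ) : φ = ψ := by
  ext z
  obtain ⟨c, rfl⟩ := hG.gen z
  rw [map_sum, map_sum]
  refine Finset.sum_congr rfl fun i _ => ?_
  rw [map_mul, map_mul, map_pow, map_pow, h1, h2]

theorem coord_inj (hG : IsGen g f θ) (c c' : Fin (2 * g + 1) → K)
    (h : ∑ i, algebraMap K M (c i) * θ ^ (i : ℕ) = ∑ i, algebraMap K M (c' i) * θ ^ (i : ℕ)) :
    c = c' := by
  have e : ∀ c : Fin (2 * g + 1) → K, ∑ i, algebraMap K M (c i) * θ ^ (i : ℕ) =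
      hG.basis.equivFun.symm c := by
    intro c
    rw [Module.Basis.equivFun_symm_apply]
    refine Finset.sum_congr rfl fun i _ => ?_
    rw [hG.basis_apply, Algebra.smul_def]
  rw [e, e] at h
  exact hG.basis.equivFun.symm.injective h

end ext

theorem tower_exists {F K L M : Type} [Field F] [NumberField F] [Field K] [NumberField K] [Field L]
    [NumberField L] [Field M] [NumberField M] [Algebra F K] [Algebra F L] [Algebra K M] [Algebra L M]
    [IsGalois F K] {g : ℕ} {f : (𝓞 F)[X]} {f' : (𝓞 K)[X]} {θ : L} (hL : IsGen g f θ)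
    (hM : IsGen g f' (algebraMap L M θ))
    (hcomp : ∀ x : F, algebraMap K M (algebraMap F K x) = algebraMap L M (algebraMap F L x))
    (hex : ∀ σ : Gal(K/F), ∃ φ : M →+* M, (∀ x : K, φ (algebraMap K M x) = algebraMap K M (σ x)) ∧
      φ (algebraMap L M θ) = algebraMap L M θ) : ∃ τ : Gal(K/F) →* Gal(M/L), Tow τ := by
  haveI : FiniteDimensional F K := Module.Finite.of_restrictScalars_finite ℚ F K
  choose φ hφ1 hφ2 using hex
  have hφL : ∀ σ, ∀ z : L, φ σ (algebraMap L M z) = algebraMap L M z := by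
    intro σ z
    have h1 : (φ σ).comp (algebraMap L M) = algebraMap L M := by
      refine hom_ext hL _ _ (fun x => ?_) ?_
      · show φ σ (algebraMap L M (algebraMap F L x)) = _
        rw [← hcomp, hφ1, AlgEquiv.commutes]
      · exact hφ2 σ
    exact congrArg (fun h : L →+* M => h z) h1
  let Φ : Gal(K/F) →* (M →ₐ[L] M) :=
    { toFun := fun σ => { φ σ with commutes' := hφL σ }
      map_one' := by
        apply AlgHom.coe_ringHom_injective
        refine hom_ext hM _ _ (fun x => ?_) ?_
        · show φ 1 (algebraMap K M x) = algebraMap K M x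
          rw [hφ1]
          rfl
        · show φ 1 (algebraMap L M θ) = algebraMap L M θ
          rw [hφ2]
      map_mul' := fun σ σ' => by
        apply AlgHom.coe_ringHom_injective
        refine hom_ext hM _ _ (fun x => ?_) ?_
        · show φ (σ * σ') (algebraMap K M x) = φ σ (φ σ' (algebraMap K M x))
          rw [hφ1, hφ1, hφ1]
          rfl
        · show φ (σ * σ') (algebraMap L M θ) = φ σ (φ σ' (algebraMap L M θ))
          rw [hφ2, hφ2, hφ2] }
  let τ : Gal(K/F) →* Gal(M/L) :=
    (AlgEquiv.algHomUnitsEquiv L M).toMonoidHom.comp (MonoidHom.toHomUnits Φ)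
  have hτ : ∀ σ z, τ σ z = φ σ z := fun σ z => rfl
  refine ⟨τ, hcomp, fun σ x => ?_, fun z hz => ?_⟩
  · rw [hτ, hφ1]
  · obtain ⟨c, hc⟩ := hM.gen z
    have h1 : ∀ σ : Gal(K/F), ∀ i, σ (c i) = c i := by
      intro σ
      have h2 := hz σ
      rw [hτ, hc, map_sum] at h2
      have h3 : ∑ i : Fin (2 * g + 1), φ σ (algebraMap K M (c i) * algebraMap L M θ ^ (i : ℕ)) =
          ∑ i : Fin (2 * g + 1), algebraMap K M (σ (c i)) * algebraMap L M θ ^ (i : ℕ) := by
        refine Finset.sum_congr rfl fun i _ => ?_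
        rw [map_mul, map_pow, hφ1, hφ2]
      rw [h3] at h2
      have h4 := coord_inj hM (fun i => σ (c i)) c h2
      exact fun i => congrFun h4 i
    have h5 : ∀ i, ∃ x : F, algebraMap F K x = c i := by
      intro i
      have h6 := (IsGalois.mem_bot_iff_fixed (F := F) (c i)).mpr fun σ => h1 σ i
      exact IntermediateField.mem_bot.mp h6
    choose d hd using h5
    refine ⟨∑ i, algebraMap F L (d i) * θ ^ (i : ℕ), ?_⟩
    rw [map_sum, hc]
    refine Finset.sum_congr rfl fun i _ => ?_
    rw [map_mul, map_pow, ← hcomp, hd]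

theorem fF_pol_map {F K : Type} [Field F] [NumberField F] [Field K] [NumberField K] [Algebra F K]
    (a b : 𝓞 F) : fF (pol (algebraMap (𝓞 F) (𝓞 K) a) (algebraMap (𝓞 F) (𝓞 K) b)) =
      (fF (pol a b)).map (algebraMap F K) := by
  unfold pol
  simp only [fF, Polynomial.map_add, Polynomial.map_mul, Polynomial.map_pow, map_X, map_C]
  rfl

theorem irr_up {F K : Type} [Field F] [NumberField F] [Field K] [NumberField K] [Algebra F K]
    (n : ℕ) (hn : Module.finrank F K = 2 ^ n) (p : F[X]) (hp : p.Monic) (hd : p.natDegree = 3)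
    (hirr : Irreducible p) : Irreducible (p.map (algebraMap F K)) := by
  haveI : FiniteDimensional F K := Module.Finite.of_restrictScalars_finite ℚ F K
  have hd' : (p.map (algebraMap F K)).natDegree = 3 := by rw [hp.natDegree_map, hd]
  rw [Polynomial.irreducible_iff_roots_eq_zero_of_degree_le_three (by omega) (by omega)]
  rw [Multiset.eq_zero_iff_forall_notMem]
  intro x hx
  have h1 : aeval x p = 0 := by
    have h2 := (mem_roots'.mp hx).2
    rwa [IsRoot.def, eval_map_algebraMap] at h2
  have h3 : p = minpoly F x := minpoly.eq_of_irreducible_of_monic hirr h1 hp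
  have h4 : (minpoly F x).natDegree ∣ Module.finrank F K := minpoly.degree_dvd (Algebra.IsIntegral.isIntegral x)
  rw [← h3, hd, hn] at h4
  have h5 := (Nat.Prime.dvd_of_dvd_pow Nat.prime_three h4)
  norm_num at h5

theorem set_ : S_SET := by
  intro F K _ _ _ _ _ _ n hn a b hirr
  set p := fF (pol a b) with hp
  set q := fF (pol (algebraMap (𝓞 F) (𝓞 K) a) (algebraMap (𝓞 F) (𝓞 K) b)) with hq
  have hqp : q = p.map (algebraMap F K) := fF_pol_map a b
  have hpm : p.Monic := (pol_monic a b).map _
  have hqm : q.Monic := (pol_monic _ _).map _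
  have hpd : p.natDegree = 3 := by rw [hp, (pol_monic a b).natDegree_map, pol_natDegree]
  have hqirr : Irreducible q := by
    rw [hqp]
    exact irr_up n hn p hpm hpd hirr
  haveI : Fact (Irreducible p) := ⟨hirr⟩
  haveI : Fact (Irreducible q) := ⟨hqirr⟩
  haveI hNL : NumberField (AdjoinRoot p) := nf_adjoin p hpm
  haveI hNM : NumberField (AdjoinRoot q) := nf_adjoin q hqm
  have hroot : q.eval₂ (AdjoinRoot.of q) (AdjoinRoot.root q) = 0 := AdjoinRoot.eval₂_root q
  have hj : p.eval₂ ((AdjoinRoot.of q).comp (algebraMap F K)) (AdjoinRoot.root q) = 0 := by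
    rw [← Polynomial.eval₂_map, ← hqp]
    exact hroot
  let j : AdjoinRoot p →+* AdjoinRoot q :=
    AdjoinRoot.lift ((AdjoinRoot.of q).comp (algebraMap F K)) (AdjoinRoot.root q) hj
  letI : Algebra (AdjoinRoot p) (AdjoinRoot q) := j.toAlgebra
  have hjr : algebraMap (AdjoinRoot p) (AdjoinRoot q) (AdjoinRoot.root p) = AdjoinRoot.root q :=
    AdjoinRoot.lift_root hj
  have hGL : IsGen 1 (pol a b) (AdjoinRoot.root p) :=
    gen_adjoin 1 (pol a b) (pol_monic a b) (pol_natDegree a b)
  have hGM : IsGen 1 (pol (algebraMap (𝓞 F) (𝓞 K) a) (algebraMap (𝓞 F) (𝓞 K) b))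
      (algebraMap (AdjoinRoot p) (AdjoinRoot q) (AdjoinRoot.root p)) := by
    rw [hjr]
    exact gen_adjoin 1 _ (pol_monic _ _) (pol_natDegree _ _)
  obtain ⟨τ, hτ⟩ := tower_exists (K := K) hGL hGM (fun x => (AdjoinRoot.lift_of hj).symm) (by
    intro σ
    have hσ : q.eval₂ ((AdjoinRoot.of q).comp (σ : K →+* K)) (AdjoinRoot.root q) = 0 := by
      have h1 : q.map (σ : K →+* K) = q := by
        rw [hqp, Polynomial.map_map]
        congr 1
        ext x
        exact σ.commutes x
      rw [← Polynomial.eval₂_map, h1]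
      exact hroot
    refine ⟨AdjoinRoot.lift _ _ hσ, fun x => AdjoinRoot.lift_of hσ, ?_⟩
    rw [hjr]
    exact AdjoinRoot.lift_root hσ)
  exact ⟨AdjoinRoot p, AdjoinRoot q, inferInstance, hNL, inferInstance, hNM, inferInstance,
    inferInstance, inferInstance, AdjoinRoot.root p, τ, hGL, hGM, hτ⟩

end Pool.Agent.P8H94.EK
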