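import Pool.Agent.P8H15.EK.Stm
import Pool.Agent.P8H15.BR.Pts

/-!
# Package SEL of the project EK, part 1: groups, and the homomorphism property
-/

set_option autoImplicit false
set_option linter.all false

open Polynomial NumberField IsDedekindDomain
open scoped Classical

namespace Pool.Agent.P8H94.EK

open Pool.Agent.P8H15.EK (S_PGR)
open Pool.Agent.K4H55.BD (crv mw halve_sq equation_iff)
open WeierstrassCurve

theorem exists_reps (hPGR : S_PGR) (P : Type) [AddCommGroup P] (hfg : AddGroup.FG P) (G : Type)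
    [Group G] [Finite G] (n : ℕ) (hG : Nat.card G = 2 ^ n) (m : G → P →+ P)
    (h1 : ∀ x, m 1 x = x) (hmul : ∀ g h x, m (g * h) x = m g (m h x)) :
    ∃ R : Finset P, 0 ∈ R ∧ (∀ x ∈ R, ∀ g, ∃ Q, m g x = x + (Q + Q)) ∧
      (∀ x ∈ R, ∀ y ∈ R, (∃ Q, x + y = Q + Q) → x = y) ∧
      2 ^ Module.finrank ℤ P ≤ R.card ^ Nat.card G := by
  let D : AddSubgroup P := (nsmulAddMonoidHom 2 : P →+ P).range
  have hD : ∀ x, x ∈ D ↔ ∃ Q, Q + Q = x := by
    intro x
    constructor
    · rintro ⟨Q, hQ⟩
      exact ⟨Q, by rw [← hQ]; exact (two_nsmul Q).symm⟩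
    · rintro ⟨Q, hQ⟩
      exact ⟨Q, by rw [← hQ]; exact two_nsmul Q⟩
  have hDm : ∀ g, D ≤ D.comap (m g) := by
    intro g x hx
    obtain ⟨Q, hQ⟩ := (hD x).mp hx
    show m g x ∈ D
    rw [hD]
    exact ⟨m g Q, by rw [← hQ, map_add]⟩
  have hV2 : ∀ v : P ⧸ D, v + v = 0 := by
    intro v
    obtain ⟨x, rfl⟩ := QuotientAddGroup.mk_surjective v
    rw [← QuotientAddGroup.mk_add, QuotientAddGroup.eq_zero_iff]
    exact (hD _).mpr ⟨x, rfl⟩
  haveI : Module.Finite ℤ P := Module.Finite.iff_addGroup_fg.mpr hfg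
  haveI : AddGroup.FG (P ⧸ D) := Module.Finite.iff_addGroup_fg.mp
    (Module.Finite.of_surjective (QuotientAddGroup.mk' D).toIntLinearMap
      (QuotientAddGroup.mk'_surjective D))
  haveI hfin : Finite (P ⧸ D) := AddCommGroup.finite_of_fg_torsion _ fun v =>
    isOfFinAddOrder_iff_nsmul_eq_zero.mpr ⟨2, by norm_num, by rw [two_nsmul]; exact hV2 v⟩
  letI act : DistribMulAction G (P ⧸ D) :=
    { smul := fun g v => QuotientAddGroup.map D D (m g) (hDm g) v
      one_smul := fun v => by
        obtain ⟨x, rfl⟩ := QuotientAddGroup.mk_surjective v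
        show QuotientAddGroup.map D D (m 1) (hDm 1) _ = _
        rw [QuotientAddGroup.map_mk, h1]
      mul_smul := fun g h v => by
        obtain ⟨x, rfl⟩ := QuotientAddGroup.mk_surjective v
        show QuotientAddGroup.map D D (m (g * h)) (hDm (g * h)) _ =
          QuotientAddGroup.map D D (m g) (hDm g) (QuotientAddGroup.map D D (m h) (hDm h) _)
        rw [QuotientAddGroup.map_mk, QuotientAddGroup.map_mk, QuotientAddGroup.map_mk, hmul]
      smul_zero := fun g => map_zero _
      smul_add := fun g v w => map_add _ v w }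
  have hsm : ∀ (g : G) (x : P), g • (QuotientAddGroup.mk x : P ⧸ D) =
      (QuotientAddGroup.mk (m g x) : P ⧸ D) := fun g x => rfl
  have key := hPGR G (P ⧸ D) n hG hV2
  letI : Fintype (P ⧸ D) := Fintype.ofFinite _
  letI : Fintype {v : P ⧸ D // ∀ g : G, g • v = v} := Fintype.ofFinite _
  -- the bound for the rank
  have hr : 2 ^ Module.finrank ℤ P ≤ Nat.card (P ⧸ D) := by
    refine (Pool.Agent.Y155.QT14.two_pow_finrank_le P hfg
      (Finset.univ.image (fun v : P ⧸ D => Quotient.out v)) ?_).trans ?_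
    · intro x
      refine ⟨_, Finset.mem_image_of_mem _ (Finset.mem_univ (QuotientAddGroup.mk x : P ⧸ D)), ?_⟩
      have h2 : (QuotientAddGroup.mk (Quotient.out (QuotientAddGroup.mk x : P ⧸ D)) : P ⧸ D) =
          QuotientAddGroup.mk x := Quotient.out_eq _
      rw [QuotientAddGroup.eq] at h2
      obtain ⟨Q, hQ⟩ := (hD _).mp h2
      refine ⟨Q, ?_⟩
      rw [hQ]
      abel
    · refine Finset.card_image_le.trans ?_
      rw [Finset.card_univ, Nat.card_eq_fintype_card]
  let rep : {v : P ⧸ D // ∀ g : G, g • v = v} → P := fun v =>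
    if v.1 = 0 then 0 else Quotient.out v.1
  have hrep : ∀ v, (QuotientAddGroup.mk (rep v) : P ⧸ D) = v.1 := by
    intro v
    by_cases h0 : v.1 = 0
    · simp only [rep, if_pos h0]
      rw [h0]
      rfl
    · simp only [rep, if_neg h0]
      exact Quotient.out_eq _
  have hinj : Function.Injective rep := by
    intro v w h
    apply Subtype.ext
    rw [← hrep v, ← hrep w, h]
  refine ⟨Finset.univ.image rep, ?_, ?_, ?_, ?_⟩
  · rw [Finset.mem_image]
    refine ⟨⟨0, fun g => smul_zero g⟩, Finset.mem_univ _, ?_⟩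
    simp only [rep, if_true]
  · intro x hx g
    obtain ⟨v, -, rfl⟩ := Finset.mem_image.mp hx
    have h2 : (QuotientAddGroup.mk (m g (rep v)) : P ⧸ D) = QuotientAddGroup.mk (rep v) := by
      rw [← hsm, hrep, v.2 g]
    obtain ⟨Q, hQ⟩ := (hD _).mp (QuotientAddGroup.eq.mp h2.symm)
    exact ⟨Q, by rw [hQ]; abel⟩
  · intro x hx y hy ⟨Q, hQ⟩
    obtain ⟨v, -, rfl⟩ := Finset.mem_image.mp hx
    obtain ⟨w, -, rfl⟩ := Finset.mem_image.mp hy
    have h2 : v.1 + w.1 = 0 := by
      rw [← hrep v, ← hrep w, ← QuotientAddGroup.mk_add, QuotientAddGroup.eq_zero_iff, hQ]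
      exact (hD _).mpr ⟨Q, rfl⟩
    have h3 : v.1 = w.1 := by
      have h4 := hV2 w.1
      rw [← h4] at h2
      exact add_right_cancel h2
    rw [Subtype.ext h3]
  · rw [Finset.card_image_of_injective _ hinj, Finset.card_univ, ← Nat.card_eq_fintype_card]
    exact hr.trans key

section delta

variable {K M : Type} [Field K] [Field M] [Algebra K M]

/-- `x - θ`, and `1` for the zero point -/
noncomputable def del (θ : M) {A B : K} : (crv A B).toAffine.Point → M
  | .zero => 1
  | .some x _ _ => algebraMap K M x - θ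

theorem del_zero (θ : M) {A B : K} : del θ (0 : (crv A B).toAffine.Point) = 1 := rfl

theorem del_some (θ : M) {A B x y : K} (h : (crv A B).toAffine.Nonsingular x y) :
    del θ (Affine.Point.some x y h) = algebraMap K M x - θ := rfl

theorem del_ne {θ : M} {A B : K} (hne : ∀ x : K, algebraMap K M x - θ ≠ 0)
    (P : (crv A B).toAffine.Point) : del θ P ≠ 0 := by
  rcases P with _ | ⟨x, y, h⟩
  · exact one_ne_zero
  · exact hne x

/-- the tangent -/
theorem tan_id {a b x1 y1 l v : K} (h1 : y1 ^ 2 = x1 ^ 3 + a * x1 + b)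
    (e1 : y1 = l * x1 + v) (hl : 2 * y1 * l = 3 * x1 ^ 2 + a) :
    x1 * x1 + (x1 + x1) * (l ^ 2 - x1 - x1) = a - 2 * l * v ∧
      x1 * x1 * (l ^ 2 - x1 - x1) = v ^ 2 - b := by
  subst e1
  have k2 : x1 * x1 + (x1 + x1) * (l ^ 2 - x1 - x1) = a - 2 * l * v := by
    linear_combination hl
  refine ⟨k2, ?_⟩
  linear_combination x1 * k2 - h1

theorem del_add {θ : M} {A B : K} (hne : ∀ x : K, algebraMap K M x - θ ≠ 0)
    (hth : θ ^ 3 = -(algebraMap K M A * θ) - algebraMap K M B) (h2 : (2 : K) ≠ 0)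
    (P Q : (crv A B).toAffine.Point) : ∃ β : M, del θ (P + Q) = β ^ 2 * (del θ P * del θ Q) := by
  rcases P with _ | ⟨x1, y1, h1⟩
  · refine ⟨1, ?_⟩
    show del θ (0 + Q) = 1 ^ 2 * (1 * del θ Q)
    rw [zero_add]
    ring
  rcases Q with _ | ⟨x2, y2, h2'⟩
  · refine ⟨1, ?_⟩
    show del θ (Affine.Point.some x1 y1 h1 + 0) = 1 ^ 2 * (del θ (Affine.Point.some x1 y1 h1) * 1)
    rw [add_zero]
    ring
  have E1 := equation_iff.1 h1.1
  have E2 := equation_iff.1 h2'.1
  have hneg : ∀ x y : K, (crv A B).toAffine.negY x y = -y := by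
    intro x y
    simp only [Affine.negY, crv, WeierstrassCurve.toAffine]
    ring
  -- the general formula
  have gen : ∀ (l v : K), x1 * x2 + (x1 + x2) * (l ^ 2 - x1 - x2) = A - 2 * l * v →
      x1 * x2 * (l ^ 2 - x1 - x2) = v ^ 2 - B → ∃ β : M, algebraMap K M (l ^ 2 - x1 - x2) - θ =
        β ^ 2 * ((algebraMap K M x1 - θ) * (algebraMap K M x2 - θ)) := by
    intro l v k1 k2
    have key : (algebraMap K M x1 - θ) * (algebraMap K M x2 - θ) *
        (algebraMap K M (l ^ 2 - x1 - x2) - θ) = (algebraMap K M l * θ + algebraMap K M v) ^ 2 := by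
      have j1 := congrArg (algebraMap K M) k1
      have j2 := congrArg (algebraMap K M) k2
      simp only [map_add, map_sub, map_mul, map_pow, map_ofNat] at j1 j2 ⊢
      linear_combination j2 - θ * j1 - hth
    refine ⟨(algebraMap K M l * θ + algebraMap K M v) /
      ((algebraMap K M x1 - θ) * (algebraMap K M x2 - θ)), ?_⟩
    have n1 := hne x1
    have n2 := hne x2
    rw [div_pow, ← key]
    field_simp
  by_cases hx : x1 = x2
  · by_cases hy : y1 = -y2
    · subst hx
      refine ⟨1 / (algebraMap K M x1 - θ), ?_⟩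
      rw [Affine.Point.add_of_Y_eq rfl (by rw [hneg, hy]), del_zero, del_some, del_some]
      have n1 := hne x1
      field_simp
    · subst hx
      have hyy : y1 ^ 2 = y2 ^ 2 := by rw [E1, E2]
      have hy' : y1 = y2 := (sq_eq_sq_iff_eq_or_eq_neg.1 hyy).resolve_right hy
      subst hy'
      have hY : y1 ≠ (crv A B).toAffine.negY x1 y1 := by
        rw [hneg]
        exact hy
      have hy0 : y1 ≠ 0 := by
        rintro rfl
        exact hy (by ring)
      rw [Affine.Point.add_self_of_Y_ne hY, del_some, del_some]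
      obtain ⟨l, hl⟩ : ∃ l : K, l = (crv A B).toAffine.slope x1 x1 y1 y1 := ⟨_, rfl⟩
      have hsl : (crv A B).toAffine.slope x1 x1 y1 y1 = (3 * x1 ^ 2 + A) / (2 * y1) := by
        rw [Affine.slope_of_Y_ne rfl hY]
        simp only [Affine.negY, crv, WeierstrassCurve.toAffine]
        congr 1
        · ring
        · ring
      have hl2 : 2 * y1 * l = 3 * x1 ^ 2 + A := by
        rw [hl, hsl]
        field_simp
      have hX : (crv A B).toAffine.addX x1 x1 ((crv A B).toAffine.slope x1 x1 y1 y1) =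
          l ^ 2 - x1 - x1 := by
        rw [← hl]
        simp only [Affine.addX, crv, WeierstrassCurve.toAffine]
        ring
      rw [hX]
      obtain ⟨k1, k2⟩ := tan_id E1 (show y1 = l * x1 + (y1 - l * x1) by ring) hl2
      exact gen l _ k1 k2
  · rw [Affine.Point.add_of_X_ne hx, del_some, del_some, del_some]
    obtain ⟨l, hl⟩ : ∃ l : K, l = (crv A B).toAffine.slope x1 x2 y1 y2 := ⟨_, rfl⟩
    have hd : x1 - x2 ≠ 0 := sub_ne_zero.2 hx
    have hsl : (crv A B).toAffine.slope x1 x2 y1 y2 = (y1 - y2) / (x1 - x2) :=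
      Affine.slope_of_X_ne hx
    have hl2 : l * (x1 - x2) = y1 - y2 := by
      rw [hl, hsl]
      field_simp
    have hX : (crv A B).toAffine.addX x1 x2 ((crv A B).toAffine.slope x1 x2 y1 y2) =
        l ^ 2 - x1 - x2 := by
      rw [← hl]
      simp only [Affine.addX, crv, WeierstrassCurve.toAffine]
      ring
    rw [hX]
    obtain ⟨k1, k2⟩ := Pool.Agent.P8H15.BR.line_id hx E1 E2
      (show y1 = l * x1 + (y1 - l * x1) by ring)
      (by linear_combination hl2 : y2 = l * x2 + (y1 - l * x1))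
    exact gen l _ k1 k2

end delta

/-- the automorphisms act on the points -/
theorem exists_act {F K : Type} [Field F] [Field K] [Algebra F K] (a b : F) (W : WeierstrassCurve K)
    (hW : (crv a b).baseChange K = W) : ∃ m : Gal(K/F) → W.toAffine.Point →+ W.toAffine.Point,
      (∀ x, m 1 x = x) ∧ (∀ g h x, m (g * h) x = m g (m h x)) ∧
      ∀ σ x y h, ∃ h', m σ (Affine.Point.some x y h) = Affine.Point.some (σ x) (σ y) h' := by
  subst hW
  refine ⟨fun σ => Affine.Point.map (W' := crv a b) (σ : K →ₐ[F] K), ?_, ?_, ?_⟩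
  · intro x
    rcases x with _ | ⟨x, y, h⟩
    · rfl
    · rfl
  · intro g h x
    rcases x with _ | ⟨x, y, h⟩
    · rfl
    · rfl
  · intro σ x y h
    exact ⟨_, rfl⟩

end Pool.Agent.P8H94.EK
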